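import Pool.Agent.H43.PS.Targets

/-! Row `RAU` of `psd_modules`. -/

namespace Pool.Agent.H66.PS

open Matrix Finset H43.PS

/-- the resolvent form of `t^2/(t+u)`. -/
theorem fm_res (hSPC : T_SPC) {κ : Type} [Fintype κ] [DecidableEq κ] (A : Matrix κ κ ℝ) (u : ℝ)
    (hA : A.PosSemidef) (hu : 0 < u) :
    fm (fun t => t ^ 2 / (t + u)) A = A - u • (1 : Matrix κ κ ℝ) + u • (1 + u⁻¹ • A)⁻¹ := by
  obtain ⟨U, a, hU, hU', hAU, hpos, hf⟩ := hSPC κ A hA.isHermitian
  have ha := hpos hA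
  have h1 : (1 + u⁻¹ • A)⁻¹ = U * diagonal (fun i => (1 + u⁻¹ * a i)⁻¹) * Uᵀ := by
    apply Matrix.inv_eq_right_inv
    have h2 : (1 : Matrix κ κ ℝ) + u⁻¹ • A = U * diagonal (fun i => 1 + u⁻¹ * a i) * Uᵀ := by
      have h3 : diagonal (fun i => 1 + u⁻¹ * a i) = (1 : Matrix κ κ ℝ) + u⁻¹ • diagonal a := by
        ext i j
        by_cases hij : i = j
        · subst hij
          simp
        · simp [hij]
      rw [h3, Matrix.mul_add, Matrix.add_mul, Matrix.mul_one, hU', Matrix.mul_smul,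
        Matrix.smul_mul, ← hAU]
    rw [h2]
    have h4 : U * diagonal (fun i => 1 + u⁻¹ * a i) * Uᵀ *
        (U * diagonal (fun i => (1 + u⁻¹ * a i)⁻¹) * Uᵀ) =
        U * (diagonal (fun i => 1 + u⁻¹ * a i) * (Uᵀ * U) *
          diagonal (fun i => (1 + u⁻¹ * a i)⁻¹)) * Uᵀ := by
      simp only [Matrix.mul_assoc]
    rw [h4, hU, Matrix.mul_one, Matrix.diagonal_mul_diagonal]
    have h5 : diagonal (fun i => (1 + u⁻¹ * a i) * (1 + u⁻¹ * a i)⁻¹) = (1 : Matrix κ κ ℝ) := by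
      rw [← Matrix.diagonal_one]
      congr 1
      funext i
      have : 0 ≤ u⁻¹ * a i := mul_nonneg (by positivity) (ha i)
      exact mul_inv_cancel₀ (by positivity)
    rw [h5, Matrix.mul_one, hU']
  rw [(hf _).1, h1]
  have h6 : diagonal (fun i => (a i) ^ 2 / (a i + u)) =
      diagonal a - u • (1 : Matrix κ κ ℝ) + u • diagonal (fun i => (1 + u⁻¹ * a i)⁻¹) := by
    ext i j
    by_cases hij : i = j
    · subst hij
      have h7 := ha i
      have h8 : a i + u ≠ 0 := by positivity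
      have h9 : 1 + u⁻¹ * a i ≠ 0 := by positivity
      simp
      field_simp
      ring
    · simp [hij]
  rw [h6, Matrix.mul_add, Matrix.mul_sub, Matrix.add_mul, Matrix.sub_mul, ← hAU, Matrix.mul_smul,
    Matrix.smul_mul, Matrix.mul_one, hU', Matrix.mul_smul, Matrix.smul_mul]

theorem RAU (hUNI : T_UNI) (hSPC : T_SPC) (hRAB : T_RAB) : T_RAU := by
  intro κ _ _ A B u hA hB hu
  have hA' : (u⁻¹ • A).PosSemidef := hA.smul (by positivity)
  have hB' : (u⁻¹ • B).PosSemidef := hB.smul (by positivity)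
  have hmain := hRAB κ (u⁻¹ • A) (u⁻¹ • B) hA' hB'
  have hE : (A - B).IsHermitian := hA.isHermitian.sub hB.isHermitian
  obtain ⟨U, e, hU, hU', hEU, -, hf⟩ := hSPC κ (A - B) hE
  have hsub : u⁻¹ • A - u⁻¹ • B = u⁻¹ • (A - B) := by rw [smul_sub]
  have hE' : u⁻¹ • (A - B) = U * diagonal (fun i => u⁻¹ * e i) * Uᵀ := by
    rw [hEU]
    have h3 : diagonal (fun i => u⁻¹ * e i) = u⁻¹ • diagonal e := by
      ext i j
      by_cases hij : i = j
      · subst hij
        simp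
      · simp [hij]
    rw [h3, Matrix.mul_smul, Matrix.smul_mul]
  rw [hsub] at hmain
  rw [(hUNI κ U _ _ hU hE' _).2] at hmain
  rw [fm_res hSPC A u hA hu, fm_res hSPC B u hB hu, (hf _).2]
  have hsq : ((A - B) * (A - B)).trace = ∑ i, (e i) ^ 2 := by
    have h4 : (A - B) * (A - B) = U * (diagonal e * diagonal e) * Uᵀ := by
      calc (A - B) * (A - B) = (U * diagonal e * Uᵀ) * (U * diagonal e * Uᵀ) := by rw [← hEU]
        _ = U * (diagonal e * (Uᵀ * U) * diagonal e) * Uᵀ := by simp only [Matrix.mul_assoc]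
        _ = U * (diagonal e * diagonal e) * Uᵀ := by rw [hU, Matrix.mul_one]
    rw [h4, Matrix.trace_mul_comm, ← Matrix.mul_assoc, hU, Matrix.one_mul,
      Matrix.diagonal_mul_diagonal, Matrix.trace_diagonal]
    exact sum_congr rfl fun i _ => by ring
  have hexp : (A - B) * (A - u • (1 : Matrix κ κ ℝ) + u • (1 + u⁻¹ • A)⁻¹ -
      (B - u • (1 : Matrix κ κ ℝ) + u • (1 + u⁻¹ • B)⁻¹)) =
      (A - B) * (A - B) - (u * u) • (u⁻¹ • (A - B) * ((1 + u⁻¹ • B)⁻¹ - (1 + u⁻¹ • A)⁻¹)) := by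
    have h5 : A - u • (1 : Matrix κ κ ℝ) + u • (1 + u⁻¹ • A)⁻¹ -
      (B - u • (1 : Matrix κ κ ℝ) + u • (1 + u⁻¹ • B)⁻¹) =
        (A - B) - u • ((1 + u⁻¹ • B)⁻¹ - (1 + u⁻¹ • A)⁻¹) := by
      rw [smul_sub]; abel
    rw [h5, Matrix.mul_sub, Matrix.mul_smul, Matrix.smul_mul, smul_smul]
    congr 2
    field_simp
  rw [hexp, Matrix.trace_sub, Matrix.trace_smul, hsq, smul_eq_mul]
  have hfin : ∑ i, |e i| * ((e i) ^ 2 / (|e i| + u)) =
      ∑ i, (e i) ^ 2 - (u * u) * ∑ i, (u⁻¹ * e i) ^ 2 / (1 + |u⁻¹ * e i|) := by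
    rw [mul_sum, ← sum_sub_distrib]
    refine sum_congr rfl fun i _ => ?_
    rw [abs_mul, abs_of_pos (inv_pos.mpr hu)]
    have h7 := abs_nonneg (e i)
    have h8 : |e i| + u ≠ 0 := by positivity
    have h9 : 1 + u⁻¹ * |e i| ≠ 0 := by positivity
    have h10 : u ≠ 0 := hu.ne'
    have h11 : u + |e i| ≠ 0 := by positivity
    field_simp
    ring
  rw [hfin]
  have := mul_le_mul_of_nonneg_left hmain (mul_self_nonneg u)
  linarith

end Pool.Agent.H66.PS
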